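import Pool.Agent.Helper82.PN.Goals
import Pool.Agent.Helper9.FR.PL

/-!
# The one-dimensional Borell-Brascamp-Lieb inequality (goal BBL1)
-/

set_option autoImplicit false

open MeasureTheory Set
open scoped ENNReal

namespace Pool.Agent.Helper67.PN

open Pool.Agent.Helper82.PN

/-- The supremum of a bounded positive function on `(0, ∞)`. -/
lemma exists_sup (b : ℝ → ℝ) (B : ℝ) (hb : ∀ x, 0 < x → 0 < b x ∧ b x ≤ B) :
    ∃ S : ℝ, 0 < S ∧ (∀ x, 0 < x → b x ≤ S) ∧ ∀ θ, θ < 1 → ∃ x, 0 < x ∧ θ * S < b x := by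
  have hne : (b '' Ioi 0).Nonempty := ⟨b 1, 1, by simp, rfl⟩
  have hbdd : BddAbove (b '' Ioi 0) := ⟨B, by
    rintro _ ⟨x, hx, rfl⟩
    exact (hb x hx).2⟩
  have hle : ∀ x, 0 < x → b x ≤ sSup (b '' Ioi 0) := fun x hx => le_csSup hbdd ⟨x, hx, rfl⟩
  have hpos : 0 < sSup (b '' Ioi 0) := lt_of_lt_of_le (hb 1 one_pos).1 (hle 1 one_pos)
  refine ⟨sSup (b '' Ioi 0), hpos, hle, fun θ hθ => ?_⟩
  have : θ * sSup (b '' Ioi 0) < sSup (b '' Ioi 0) := by nlinarith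
  obtain ⟨_, ⟨x, hx, rfl⟩, h⟩ := exists_lt_of_lt_csSup hne this
  exact ⟨x, hx, h⟩

/-- The layer cake formula for `f ^ 2` on `(0, ∞)`. -/
lemma layer (f : ℝ → ℝ) (hf : Measurable f) (h0 : ∀ x, 0 < x → 0 < f x) :
    ∫⁻ x in Ioi (0 : ℝ), ENNReal.ofReal (f x ^ 2) =
      ENNReal.ofReal 2 * ∫⁻ t in Ioi (0 : ℝ),
        volume.restrict (Ioi (0 : ℝ)) {x : ℝ | t < f x} * ENNReal.ofReal t := by
  have h1 := lintegral_rpow_eq_lintegral_meas_lt_mul (μ := volume.restrict (Ioi (0 : ℝ)))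
    (f := f) (by
      filter_upwards [self_mem_ae_restrict (measurableSet_Ioi : MeasurableSet (Ioi (0 : ℝ)))]
      intro x hx
      exact (h0 x hx).le) hf.aemeasurable (p := 2) two_pos
  have e1 : (fun x : ℝ => ENNReal.ofReal (f x ^ (2 : ℝ))) = fun x => ENNReal.ofReal (f x ^ 2) := by
    funext x
    rw [Real.rpow_two]
  have e2 : (fun t : ℝ => volume.restrict (Ioi (0 : ℝ)) {x : ℝ | t < f x} *
      ENNReal.ofReal (t ^ ((2 : ℝ) - 1))) = fun t : ℝ =>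
        volume.restrict (Ioi (0 : ℝ)) {x : ℝ | t < f x} * ENNReal.ofReal t := by
    funext t
    norm_num
  rw [e1, e2] at h1
  exact h1

/-- The normalised inequality. -/
lemma norm_step (f₀ f₁ f : ℝ → ℝ) (ρ : ℝ) (hρ0 : 0 < ρ) (hρ1 : ρ < 1)
    (hm₀ : Measurable f₀) (hm₁ : Measurable f₁) (hm : Measurable f)
    (h₀ : ∀ x, 0 < x → 0 < f₀ x ∧ f₀ x ≤ 1) (h₁ : ∀ x, 0 < x → 0 < f₁ x ∧ f₁ x ≤ 1)
    (hf : ∀ x, 0 < x → 0 < f x)
    (s₀ : ∀ θ, θ < 1 → ∃ x, 0 < x ∧ θ < f₀ x) (s₁ : ∀ θ, θ < 1 → ∃ x, 0 < x ∧ θ < f₁ x)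
    (H : ∀ θ, 0 < θ → θ < 1 → ∀ x y, 0 < x → 0 < y → θ < f₀ x → θ < f₁ y →
      θ < f ((1 - ρ) * x + ρ * y)) :
    ENNReal.ofReal (1 - ρ) * (∫⁻ x in Ioi (0 : ℝ), ENNReal.ofReal (f₀ x ^ 2)) +
      ENNReal.ofReal ρ * (∫⁻ x in Ioi (0 : ℝ), ENNReal.ofReal (f₁ x ^ 2)) ≤
      ∫⁻ x in Ioi (0 : ℝ), ENNReal.ofReal (f x ^ 2) := by
  have hρ' : 0 < 1 - ρ := by linarith
  set ν : Measure ℝ := volume.restrict (Ioi (0 : ℝ)) with hν
  have meas : ∀ g : ℝ → ℝ, Measurable fun t : ℝ => ν {x : ℝ | t < g x} * ENNReal.ofReal t := by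
    intro g
    have hanti : Antitone fun t : ℝ => ν {x : ℝ | t < g x} := by
      intro s t hst
      exact measure_mono fun x hx => lt_of_le_of_lt hst hx
    exact hanti.measurable.mul ENNReal.measurable_ofReal
  have main : ∀ t : ℝ, 0 < t →
      ENNReal.ofReal (1 - ρ) * (ν {x : ℝ | t < f₀ x} * ENNReal.ofReal t) +
        ENNReal.ofReal ρ * (ν {x : ℝ | t < f₁ x} * ENNReal.ofReal t) ≤
        ν {x : ℝ | t < f x} * ENNReal.ofReal t := by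
    intro t ht
    have key : ENNReal.ofReal (1 - ρ) * ν {x : ℝ | t < f₀ x} +
        ENNReal.ofReal ρ * ν {x : ℝ | t < f₁ x} ≤ ν {x : ℝ | t < f x} := by
      rcases lt_or_ge t 1 with ht1 | ht1
      · have r : ∀ g : ℝ → ℝ, Measurable g →
            ν {x : ℝ | t < g x} = volume ({x : ℝ | t < g x} ∩ Ioi 0) := by
          intro g hg
          rw [hν, Measure.restrict_apply (measurableSet_lt measurable_const hg)]
        rw [r _ hm₀, r _ hm₁, r _ hm]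
        obtain ⟨x, hx, hx'⟩ := s₀ t ht1
        obtain ⟨y, hy, hy'⟩ := s₁ t ht1
        refine Pool.Agent.Helper9.FR.bm_one hρ0 hρ1
          ((measurableSet_lt measurable_const hm₀).inter measurableSet_Ioi)
          ((measurableSet_lt measurable_const hm₁).inter measurableSet_Ioi)
          ⟨x, hx', hx⟩ ⟨y, hy', hy⟩ ?_
        rintro u ⟨hu, hu0⟩ w ⟨hw, hw0⟩
        have hu0' : 0 < u := hu0
        have hw0' : 0 < w := hw0
        exact ⟨H t ht ht1 u w hu0 hw0 hu hw, by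
          change 0 < (1 - ρ) * u + ρ * w
          positivity⟩
      · have z : ∀ g : ℝ → ℝ, (∀ x, 0 < x → 0 < g x ∧ g x ≤ 1) → Measurable g →
            ν {x : ℝ | t < g x} = 0 := by
          intro g hg hgm
          rw [hν, Measure.restrict_apply (measurableSet_lt measurable_const hgm)]
          have : {x : ℝ | t < g x} ∩ Ioi 0 = ∅ := by
            ext x
            constructor
            · rintro ⟨hx, hx0⟩
              have := (hg x hx0).2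
              have hx' : t < g x := hx
              exact absurd (lt_of_lt_of_le hx' this) (not_lt.mpr ht1)
            · intro hx
              exact absurd hx (notMem_empty x)
          rw [this, measure_empty]
        rw [z f₀ h₀ hm₀, z f₁ h₁ hm₁]
        simp
    calc ENNReal.ofReal (1 - ρ) * (ν {x : ℝ | t < f₀ x} * ENNReal.ofReal t) +
        ENNReal.ofReal ρ * (ν {x : ℝ | t < f₁ x} * ENNReal.ofReal t)
        = (ENNReal.ofReal (1 - ρ) * ν {x : ℝ | t < f₀ x} +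
          ENNReal.ofReal ρ * ν {x : ℝ | t < f₁ x}) * ENNReal.ofReal t := by ring
      _ ≤ ν {x : ℝ | t < f x} * ENNReal.ofReal t := by gcongr
  rw [layer f₀ hm₀ fun x hx => (h₀ x hx).1, layer f₁ hm₁ fun x hx => (h₁ x hx).1, layer f hm hf]
  calc ENNReal.ofReal (1 - ρ) * (ENNReal.ofReal 2 * ∫⁻ t in Ioi (0 : ℝ),
          ν {x : ℝ | t < f₀ x} * ENNReal.ofReal t) +
        ENNReal.ofReal ρ * (ENNReal.ofReal 2 * ∫⁻ t in Ioi (0 : ℝ),
          ν {x : ℝ | t < f₁ x} * ENNReal.ofReal t)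
      = ENNReal.ofReal 2 * (ENNReal.ofReal (1 - ρ) * (∫⁻ t in Ioi (0 : ℝ),
          ν {x : ℝ | t < f₀ x} * ENNReal.ofReal t) +
        ENNReal.ofReal ρ * ∫⁻ t in Ioi (0 : ℝ),
          ν {x : ℝ | t < f₁ x} * ENNReal.ofReal t) := by ring
    _ = ENNReal.ofReal 2 * ∫⁻ t in Ioi (0 : ℝ),
          (ENNReal.ofReal (1 - ρ) * (ν {x : ℝ | t < f₀ x} * ENNReal.ofReal t) +
          ENNReal.ofReal ρ * (ν {x : ℝ | t < f₁ x} * ENNReal.ofReal t)) := by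
        rw [lintegral_add_left ((meas f₀).const_mul _), lintegral_const_mul _ (meas f₀),
          lintegral_const_mul _ (meas f₁)]
    _ ≤ ENNReal.ofReal 2 * ∫⁻ t in Ioi (0 : ℝ), ν {x : ℝ | t < f x} * ENNReal.ofReal t := by
        gcongr ENNReal.ofReal 2 * ?_
        refine setLIntegral_mono (meas f) fun t ht => main t ht

/-- Goal BBL1. -/
theorem gBBL1 : BBL1 := by
  intro a₀ a₁ a ρ B hρ0 hρ1 hm₀ hm₁ hm ha₀ ha₁ ha h hi₀ hi₁ hi
  have hρ' : 0 < 1 - ρ := by linarith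
  obtain ⟨S₀, hS₀, hle₀, hsup₀⟩ := exists_sup a₀ B ha₀
  obtain ⟨S₁, hS₁, hle₁, hsup₁⟩ := exists_sup a₁ B ha₁
  have hD : 0 < (1 - ρ) * S₁ + ρ * S₀ := by positivity
  obtain ⟨M, hM⟩ : ∃ M : ℝ, M = S₀ * S₁ / ((1 - ρ) * S₁ + ρ * S₀) := ⟨_, rfl⟩
  have hM0 : 0 < M := by rw [hM]; positivity
  have hMD : M * ((1 - ρ) * S₁ + ρ * S₀) = S₀ * S₁ := by
    rw [hM]; field_simp
  have step := norm_step (fun x => a₀ x / S₀) (fun x => a₁ x / S₁) (fun x => a x / M) ρ hρ0 hρ1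
    (hm₀.div_const _) (hm₁.div_const _) (hm.div_const _)
    (fun x hx => ⟨div_pos (ha₀ x hx).1 hS₀, (div_le_one hS₀).mpr (hle₀ x hx)⟩)
    (fun x hx => ⟨div_pos (ha₁ x hx).1 hS₁, (div_le_one hS₁).mpr (hle₁ x hx)⟩)
    (fun x hx => div_pos (ha x hx) hM0)
    (fun θ hθ => by
      obtain ⟨x, hx, hx'⟩ := hsup₀ θ hθ
      exact ⟨x, hx, (lt_div_iff₀ hS₀).mpr hx'⟩)
    (fun θ hθ => by
      obtain ⟨x, hx, hx'⟩ := hsup₁ θ hθ
      exact ⟨x, hx, (lt_div_iff₀ hS₁).mpr hx'⟩)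
    (by
      intro θ hθ0 hθ1 x y hx hy hu hw
      rw [lt_div_iff₀ hS₀] at hu
      rw [lt_div_iff₀ hS₁] at hw
      rw [lt_div_iff₀ hM0]
      by_contra hcon
      push Not at hcon
      have hu0 := (ha₀ x hx).1
      have hw0 := (ha₁ y hy).1
      have hh := h x y hx hy
      set u := a₀ x
      set w := a₁ y
      have hE : 0 < (1 - ρ) * w + ρ * u := by positivity
      have h1 : u * w ≤ θ * M * ((1 - ρ) * w + ρ * u) :=
        hh.trans (mul_le_mul_of_nonneg_right hcon hE.le)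
      have h2 : u * w * ((1 - ρ) * S₁ + ρ * S₀) ≤ θ * (S₀ * S₁) * ((1 - ρ) * w + ρ * u) := by
        calc u * w * ((1 - ρ) * S₁ + ρ * S₀)
            ≤ θ * M * ((1 - ρ) * w + ρ * u) * ((1 - ρ) * S₁ + ρ * S₀) :=
              mul_le_mul_of_nonneg_right h1 hD.le
          _ = θ * (M * ((1 - ρ) * S₁ + ρ * S₀)) * ((1 - ρ) * w + ρ * u) := by ring
          _ = θ * (S₀ * S₁) * ((1 - ρ) * w + ρ * u) := by rw [hMD]
      have h3 : θ * S₀ * ((1 - ρ) * w * S₁) < u * ((1 - ρ) * w * S₁) :=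
        mul_lt_mul_of_pos_right hu (by positivity)
      have h4 : θ * S₁ * (ρ * u * S₀) < w * (ρ * u * S₀) :=
        mul_lt_mul_of_pos_right hw (by positivity)
      nlinarith)
  -- pass to real integrals
  have conv : ∀ (b : ℝ → ℝ) (S : ℝ), 0 < S → IntegrableOn (fun x => b x ^ 2) (Ioi 0) →
      ∫⁻ x in Ioi (0 : ℝ), ENNReal.ofReal ((b x / S) ^ 2) =
        ENNReal.ofReal ((∫ x in Ioi 0, b x ^ 2) / S ^ 2) := by
    intro b S hS hb
    have hb' : IntegrableOn (fun x => (b x / S) ^ 2) (Ioi 0) := by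
      have : (fun x => (b x / S) ^ 2) = fun x => b x ^ 2 / S ^ 2 := by
        funext x
        rw [div_pow]
      rw [this]
      exact hb.div_const _
    rw [← ofReal_integral_eq_lintegral_ofReal hb' (Filter.Eventually.of_forall fun x => by
      positivity)]
    congr 1
    rw [← integral_div]
    congr 1
    funext x
    rw [div_pow]
  rw [conv a₀ S₀ hS₀ hi₀, conv a₁ S₁ hS₁ hi₁, conv a M hM0 hi] at step
  set I₀ := ∫ x in Ioi 0, a₀ x ^ 2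
  set I₁ := ∫ x in Ioi 0, a₁ x ^ 2
  set I := ∫ x in Ioi 0, a x ^ 2
  have hI₀ : 0 ≤ I₀ := integral_nonneg fun x => sq_nonneg _
  have hI₁ : 0 ≤ I₁ := integral_nonneg fun x => sq_nonneg _
  have hI : 0 ≤ I := integral_nonneg fun x => sq_nonneg _
  rw [← ENNReal.ofReal_mul hρ'.le, ← ENNReal.ofReal_mul hρ0.le,
    ← ENNReal.ofReal_add (by positivity) (by positivity),
    ENNReal.ofReal_le_ofReal_iff (by positivity)] at step
  -- the algebra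
  have h5 : M ^ 2 * ((1 - ρ) * (I₀ / S₀ ^ 2) + ρ * (I₁ / S₁ ^ 2)) ≤ I := by
    calc M ^ 2 * ((1 - ρ) * (I₀ / S₀ ^ 2) + ρ * (I₁ / S₁ ^ 2)) ≤ M ^ 2 * (I / M ^ 2) :=
          mul_le_mul_of_nonneg_left step (by positivity)
      _ = I := by field_simp
  have hG : 0 ≤ (1 - ρ) * I₁ + ρ * I₀ := by positivity
  have h6 : I₀ * I₁ * ((1 - ρ) / S₀ + ρ / S₁) ^ 2 ≤
      ((1 - ρ) * (I₀ / S₀ ^ 2) + ρ * (I₁ / S₁ ^ 2)) * ((1 - ρ) * I₁ + ρ * I₀) := by
    have e : ((1 - ρ) * (I₀ / S₀ ^ 2) + ρ * (I₁ / S₁ ^ 2)) * ((1 - ρ) * I₁ + ρ * I₀) -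
        I₀ * I₁ * ((1 - ρ) / S₀ + ρ / S₁) ^ 2 = (1 - ρ) * ρ * (I₀ / S₀ - I₁ / S₁) ^ 2 := by
      field_simp
      ring
    have : 0 ≤ (1 - ρ) * ρ * (I₀ / S₀ - I₁ / S₁) ^ 2 := by positivity
    linarith
  have h7 : M * ((1 - ρ) / S₀ + ρ / S₁) = 1 := by
    rw [hM]
    field_simp
  calc I₀ * I₁ = M ^ 2 * (I₀ * I₁ * ((1 - ρ) / S₀ + ρ / S₁) ^ 2) := by
        calc I₀ * I₁ = I₀ * I₁ * (M * ((1 - ρ) / S₀ + ρ / S₁)) ^ 2 := by rw [h7]; ring
          _ = M ^ 2 * (I₀ * I₁ * ((1 - ρ) / S₀ + ρ / S₁) ^ 2) := by ring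
    _ ≤ M ^ 2 * (((1 - ρ) * (I₀ / S₀ ^ 2) + ρ * (I₁ / S₁ ^ 2)) * ((1 - ρ) * I₁ + ρ * I₀)) :=
        mul_le_mul_of_nonneg_left h6 (by positivity)
    _ = (M ^ 2 * ((1 - ρ) * (I₀ / S₀ ^ 2) + ρ * (I₁ / S₁ ^ 2))) * ((1 - ρ) * I₁ + ρ * I₀) := by
        ring
    _ ≤ I * ((1 - ρ) * I₁ + ρ * I₀) := mul_le_mul_of_nonneg_right h5 hG

end Pool.Agent.Helper67.PN
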