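import Pool.Agent.Helper82.PN.Goals

/-!
# Continuity of F (goal FNEAR)
-/

set_option autoImplicit false

open MeasureTheory Set Filter Topology
open scoped ENNReal
open Pool.Agent.Helper47.AQ

namespace Pool.Agent.Helper67.PN

open Pool.Agent.Helper82.PN

/-- A homothetic copy of `S` inside `T`. -/
lemma vol_homothety_le {ι : Type} [Fintype ι] (S T : Set (ι → ℝ)) (c : ι → ℝ) (r : ℝ) (hr : 0 < r)
    (hT : volume T ≠ ⊤) (h : ∀ x ∈ S, c + r • (x - c) ∈ T) :
    r ^ Fintype.card ι * (volume S).toReal ≤ (volume T).toReal := by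
  have hsub : AffineMap.homothety c r '' S ⊆ T := by
    rintro _ ⟨x, hx, rfl⟩
    have := h x hx
    rw [AffineMap.homothety_apply, vsub_eq_sub, vadd_eq_add, add_comm]
    exact this
  have h1 := measure_mono (μ := (volume : Measure (ι → ℝ))) hsub
  rw [Measure.addHaar_image_homothety, Module.finrank_pi] at h1
  have h2 := ENNReal.toReal_mono hT h1
  rw [ENNReal.toReal_mul, ENNReal.toReal_ofReal (abs_nonneg _), abs_of_pos (pow_pos hr _)] at h2
  exact h2

/-- The polars of the difference bodies. -/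
lemma dpol_homothety {ι : Type} [Fintype ι] (S T : Set (ι → ℝ)) (c : ι → ℝ) (r : ℝ)
    (h : ∀ x ∈ S, c + r • (x - c) ∈ T) : ∀ p ∈ dpol T, (0 : ι → ℝ) + r • (p - 0) ∈ dpol S := by
  intro p hp x hx y hy
  have := hp _ (h x hx) _ (h y hy)
  refine le_trans (le_of_eq ?_) this
  refine Finset.sum_congr rfl fun i _ => ?_
  simp only [Pi.add_apply, Pi.smul_apply, Pi.sub_apply, Pi.zero_apply, smul_eq_mul]
  ring

/-- Goal FNEAR. -/
theorem gFNEAR : NEARI → FNEAR := by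
  intro hN ι _ K hK η hη
  obtain ⟨c, hc⟩ := hK.int
  have hF : 0 < F K := mul_pos hK.vol_pos hK.dpol_pos
  set n := Fintype.card ι with hn
  have hcont : Tendsto (fun δ : ℝ => (((1 - δ) * (1 + δ)⁻¹) ^ n)⁻¹ * F K) (𝓝[>] 0)
      (𝓝 ((((1 - (0 : ℝ)) * (1 + (0 : ℝ))⁻¹) ^ n)⁻¹ * F K)) := by
    apply Tendsto.mono_left _ nhdsWithin_le_nhds
    have hca : ContinuousAt (fun δ : ℝ => (((1 - δ) * (1 + δ)⁻¹) ^ n)⁻¹ * F K) 0 := by
      apply ContinuousAt.mul _ continuousAt_const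
      apply ContinuousAt.inv₀
      · apply ContinuousAt.pow
        apply ContinuousAt.mul (by fun_prop)
        apply ContinuousAt.inv₀ (by fun_prop)
        norm_num
      · simp
    exact hca.tendsto
  have hev : ∀ᶠ δ : ℝ in 𝓝[>] 0, (((1 - δ) * (1 + δ)⁻¹) ^ n)⁻¹ * F K < F K + η := by
    apply hcont.eventually_lt_const
    simp
    exact hη
  have hev1 : ∀ᶠ δ : ℝ in 𝓝[>] 0, δ < 1 :=
    nhdsWithin_le_nhds (Iio_mem_nhds one_pos)
  have hev0 : ∀ᶠ δ : ℝ in 𝓝[>] 0, 0 < δ := self_mem_nhdsWithin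
  obtain ⟨δ, ⟨hδ, hδ1⟩, hδ0⟩ := ((hev.and hev1).and hev0).exists
  obtain ⟨ε, hε, H⟩ := hN ι K c hK hc δ hδ0 hδ1
  refine ⟨ε, hε, fun K' hK' hnear => ?_⟩
  obtain ⟨hA, hB⟩ := H K' hK'.conv hK'.comp.isClosed hnear
  have h1δ : 0 < 1 - δ := by linarith
  have h2δ : 0 < 1 + δ := by linarith
  have hB' : ∀ y ∈ K', c + (1 + δ)⁻¹ • (y - c) ∈ K := by
    intro y hy
    obtain ⟨x, hx, hxy⟩ := hB y hy
    have : c + (1 + δ)⁻¹ • (y - c) = x := by
      rw [hxy, add_sub_cancel_left, smul_smul, inv_mul_cancel₀ h2δ.ne', one_smul,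
        add_sub_cancel]
    rw [this]
    exact hx
  have v1 := vol_homothety_le K K' c (1 - δ) h1δ hK'.vol_ne_top hA
  have v2 := vol_homothety_le K' K c (1 + δ)⁻¹ (by positivity) hK.vol_ne_top hB'
  have p1 := vol_homothety_le (dpol K') (dpol K) 0 (1 - δ) h1δ hK.dpol_ne_top
    (dpol_homothety K K' c (1 - δ) hA)
  have p2 := vol_homothety_le (dpol K) (dpol K') 0 (1 + δ)⁻¹ (by positivity) hK'.dpol_ne_top
    (dpol_homothety K' K c (1 + δ)⁻¹ hB')
  rw [← hn] at v1 v2 p1 p2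
  have hq : 0 < (1 - δ) ^ n := by positivity
  have hs : 0 < ((1 + δ)⁻¹) ^ n := by positivity
  have hV := hK.vol_pos
  have hP := hK.dpol_pos
  have hV' := hK'.vol_pos
  have hP' := hK'.dpol_pos
  have hθ : ((1 - δ) * (1 + δ)⁻¹) ^ n = (1 - δ) ^ n * ((1 + δ)⁻¹) ^ n := mul_pow _ _ _
  have hle1 : (1 - δ) ^ n * ((1 + δ)⁻¹) ^ n * F K ≤ F K' := by
    have := mul_le_mul v1 p2 (by positivity) hV'.le
    unfold F
    calc (1 - δ) ^ n * ((1 + δ)⁻¹) ^ n * ((volume K).toReal * (volume (dpol K)).toReal)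
        = (1 - δ) ^ n * (volume K).toReal * (((1 + δ)⁻¹) ^ n * (volume (dpol K)).toReal) := by ring
      _ ≤ _ := this
  have hle2 : (1 - δ) ^ n * ((1 + δ)⁻¹) ^ n * F K' ≤ F K := by
    have := mul_le_mul v2 p1 (by positivity) hV.le
    unfold F
    calc (1 - δ) ^ n * ((1 + δ)⁻¹) ^ n * ((volume K').toReal * (volume (dpol K')).toReal)
        = ((1 + δ)⁻¹) ^ n * (volume K').toReal * ((1 - δ) ^ n * (volume (dpol K')).toReal) := by
          ring
      _ ≤ _ := this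
  rw [hθ] at hδ
  set θ := (1 - δ) ^ n * ((1 + δ)⁻¹) ^ n with hθd
  have hθ0 : 0 < θ := by positivity
  have hub : F K' < F K + η := by
    have : F K' ≤ θ⁻¹ * F K := by
      rw [inv_mul_eq_div, le_div_iff₀ hθ0, mul_comm]
      exact hle2
    linarith
  have hlb : F K - η < F K' := by
    -- θ⁻¹ F < F + η, so F < θ F + θ η
    have h3 : F K < θ * (F K + η) := by
      rw [inv_mul_eq_div, div_lt_iff₀ hθ0] at hδ
      linarith [mul_comm θ (F K + η)]
    have hθ1 : θ ≤ 1 := by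
      have a1 : (1 - δ) ^ n ≤ 1 := pow_le_one₀ h1δ.le (by linarith)
      have a2 : ((1 + δ)⁻¹) ^ n ≤ 1 := pow_le_one₀ (by positivity) (inv_le_one_of_one_le₀ (by linarith))
      calc θ ≤ 1 * 1 := mul_le_mul a1 a2 hs.le zero_le_one
        _ = 1 := one_mul 1
    have h4 : θ * η ≤ η := by
      calc θ * η ≤ 1 * η := mul_le_mul_of_nonneg_right hθ1 hη.le
        _ = η := one_mul η
    have h5 : θ * (F K + η) = θ * F K + θ * η := by ring
    linarith
  rw [abs_lt]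
  constructor <;> linarith

end Pool.Agent.Helper67.PN
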